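import Pool.Agent.TH819.PB.Bs

/-! Short intervals with more primes than the mean and short intervals with fewer. -/

open MeasureTheory

namespace Pool.Agent.Results.MP_2a816b_nt.BothSigns

/-- The weighted number of prime powers in the interval of length `H` centred at `x`. -/
noncomputable def psi (x H : ℝ) : ℝ :=
  ∑ᶠ n ∈ {n : ℕ | 1 ≤ n ∧ x - H / 2 ≤ n ∧ (n : ℝ) ≤ x + H / 2}, ArithmeticFunction.vonMangoldt n

/-- For every integer `k ≥ 2` and `δ > 0` there are `c > 0` and `X₀` such that for `X ≥ X₀` and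
`1 ≤ H ≤ X ^ (1 / (2 k) - δ)`, with `T = √(H (1 + log H))`,
`U = c T (T / (H log X)) ^ (1 / (2 k - 1))` and `y` the mean of `ψ(x;H)` over `1 ≤ x ≤ X`: each of
`ψ(x;H) ≥ y + U` and `ψ(x;H) ≤ y - U` holds on a set of measure at least `X U / (H log X)`. -/
theorem result : ∀ k : ℕ, 2 ≤ k → ∀ δ : ℝ, 0 < δ → ∃ c X₀ : ℝ, 0 < c ∧ ∀ X H T U y : ℝ,
    X₀ ≤ X → 1 ≤ H → H ≤ X ^ (1 / (2 * (k : ℝ)) - δ) →
    T = Real.sqrt (H * (1 + Real.log H)) →
    U = c * T * (T / (H * Real.log X)) ^ (1 / (2 * (k : ℝ) - 1)) →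
    (X - 1) * y = ∫ x in (1 : ℝ)..X, psi x H →
    X * (U / (H * Real.log X)) ≤ (volume {x : ℝ | 1 < x ∧ x ≤ X ∧ y + U ≤ psi x H}).toReal ∧
    X * (U / (H * Real.log X)) ≤ (volume {x : ℝ | 1 < x ∧ x ≤ X ∧ psi x H ≤ y - U}).toReal := by
  intro k hk δ hδ
  obtain ⟨c, X₀, hc, h⟩ := TH819.PL.both_signs k hk δ hδ
  refine ⟨c, X₀, hc, fun X H T U y hX hH hHX hT hU hy => ?_⟩
  obtain ⟨h1, h2, -⟩ := h X H T U y hX hH hHX hT hU hy
  exact ⟨h1, h2⟩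

end Pool.Agent.Results.MP_2a816b_nt.BothSigns
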