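import Pool.Agent.TH819.PL.FinD

/-! Large values of `ψ(x;H) - H`. -/

open MeasureTheory

namespace Pool.Agent.Results.MP_2a816b_nt.LargeValues

/-- The weighted number of prime powers in the interval of length `H` centred at `x`. -/
noncomputable def psi (x H : ℝ) : ℝ :=
  ∑ᶠ n ∈ {n : ℕ | 1 ≤ n ∧ x - H / 2 ≤ n ∧ (n : ℝ) ≤ x + H / 2}, ArithmeticFunction.vonMangoldt n

/-- For every integer `k ≥ 2` and `δ > 0` there are `c > 0` and `X₀` such that for `X ≥ X₀` and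
`1 ≤ H ≤ X ^ (1 / (2 k) - δ)`: `|ψ(x;H) - H| ≥ c √(H (1 + log H))` on a set of measure at least
`c X (√(H (1 + log H)) / (H log X)) ^ (2k / (2k - 1))`. -/
theorem result : ∀ k : ℕ, 2 ≤ k → ∀ δ : ℝ, 0 < δ → ∃ c X₀ : ℝ, 0 < c ∧ ∀ X H : ℝ,
    X₀ ≤ X → 1 ≤ H → H ≤ X ^ (1 / (2 * (k : ℝ)) - δ) →
    c * X * (Real.sqrt (H * (1 + Real.log H)) / (H * Real.log X)) ^ (2 * (k : ℝ) / (2 * k - 1)) ≤
      (volume {x : ℝ | 1 < x ∧ x ≤ X ∧
        c * Real.sqrt (H * (1 + Real.log H)) ≤ |psi x H - H|}).toReal := by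
  intro k hk δ hδ
  obtain ⟨c, X₀, hc, h⟩ := TH819.PL.all_moments k hk δ hδ
  exact ⟨c, X₀, hc, fun X H hX hH hHX => (h X H hX hH hHX).2⟩

end Pool.Agent.Results.MP_2a816b_nt.LargeValues
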