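import Pool.Agent.TH819.PB.Mc

/-! Lower bounds of the conjectured order for all moments of order `p > 1` of `ψ(x;H) - z`. -/

open MeasureTheory

namespace Pool.Agent.Results.MP_2a816b_nt.MomentsAboveOne

/-- The weighted number of prime powers in the interval of length `H` centred at `x`. -/
noncomputable def psi (x H : ℝ) : ℝ :=
  ∑ᶠ n ∈ {n : ℕ | 1 ≤ n ∧ x - H / 2 ≤ n ∧ (n : ℝ) ≤ x + H / 2}, ArithmeticFunction.vonMangoldt n

/-- For every integer `k ≥ 2` and `δ > 0` there are `c > 0` and `X₀` such that for `X ≥ X₀`,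
`1 ≤ H ≤ X ^ (1 / (2 k) - δ)`, every real `z` and every real `p ≥ 2k / (2k - 1)`, the mean of
`|ψ(x;H) - z| ^ p` over `1 ≤ x ≤ X` is at least `(c √(H (1 + log H))) ^ p`. -/
theorem result : ∀ k : ℕ, 2 ≤ k → ∀ δ : ℝ, 0 < δ → ∃ c X₀ : ℝ, 0 < c ∧ ∀ X H z p : ℝ,
    X₀ ≤ X → 1 ≤ H → H ≤ X ^ (1 / (2 * (k : ℝ)) - δ) → 2 * (k : ℝ) / (2 * k - 1) ≤ p →
    (c * Real.sqrt (H * (1 + Real.log H))) ^ p ≤
      (1 / X) * ∫ x in (1 : ℝ)..X, |psi x H - z| ^ p :=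
  TH819.PL.moments_c

end Pool.Agent.Results.MP_2a816b_nt.MomentsAboveOne
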