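import Pool.Agent.TH464.PO.ApInst

set_option autoImplicit false

/-!
# Almost primes in arithmetic progressions, uniformly in the modulus: all moments of the counts in
several windows

Let `m` be good if `q m + a` has at most `(D + 1) r` prime factors, all larger than `X ^ (1 / r)`.
Let `V` be the product of `1 - 1 / p` over the primes `p ≤ X ^ (1 / r)` not dividing `q`. The
modulus `q ≤ X ^ D` may be as large as any fixed power of the length of the progression, and the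
progression may start anywhere up to `X ^ (D + 1)`; `q = 1` is the case of short intervals. Given
`θ > 0`, exponents `e_1, ..., e_w`, a size `x` and an accuracy `ε`, for all `r ≥ r0` and all large
`X`, uniformly in all `q ≤ X ^ D` and `a ≤ X ^ (D + 1)` prime to `q`, in ALL intervals `(Z, Z +
Y]` inside `[0, 2 X]` of length `Y ≥ X ^ θ` and for ALL disjoint windows `(u_i, v_i]`, `i = 1,
..., w`, with `v_i V ≤ x`: the mean over `n` in `(Z, Z + Y]` of the product of the binomial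
coefficients `C(N_i, e_i)`, `N_i` the number of the good integers in the window `(n + u_i, n +
v_i]`, is the product of the `((v_i - u_i) V) ^ e_i / e_i!`, up to `ε`.
-/

namespace Pool.Agent.Results.MP_2a816b_nt.MomentsUniform

open Finset Filter

/-- `N` has at most `B` prime factors (with multiplicity), all of them larger than `z`. -/
def AlmostPrime (B : ℕ) (z : ℝ) (N : ℕ) : Prop :=
  N.primeFactorsList.length ≤ B ∧ ∀ p : ℕ, p.Prime → p ∣ N → z < (p : ℝ)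

/-- `m` is good: `q m + a` has at most `(D + 1) r` prime factors, all larger than `X ^ (1 / r)`. -/
def Good (D r X q a m : ℕ) : Prop :=
  AlmostPrime ((D + 1) * r) ((X : ℝ) ^ (1 / (r : ℝ))) (q * m + a)

/-- The sieve density of the progression: the product of `1 - 1 / p` over the primes `p ≤ X ^ (1 / r)`
not dividing `q`. -/
noncomputable def V (r X q : ℕ) : ℝ :=
  ∏ p ∈ (Finset.range (⌊(X : ℝ) ^ (1 / (r : ℝ))⌋₊ + 1)).filter (fun p => p.Prime ∧ ¬ p ∣ q),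
    (1 - 1 / (p : ℝ))

open Classical in
/-- The number of the good `m` in `(u, v]`. -/
noncomputable def N (D r X q a : ℕ) (u v : ℕ) : ℕ :=
  ((Finset.Ioc u v).filter (fun m => Good D r X q a m)).card

open Pool.Agent.TH464.PO Pool.Agent.H373R2.T7 Pool.Agent.W123.RP

lemma fam (D : ℕ) (r : ℕ) (hr : 1 ≤ r) : ∀ᶠ X : ℕ in atTop, ∀ i : ℕ × ℕ,
    (1 ≤ i.1 ∧ i.1 ≤ X ^ D ∧ i.2 ≤ X ^ (D + 1) ∧ Nat.Coprime i.2 i.1) →
    ∃ u v : Fin 1 → ℤ, AF u v (X ^ D) ∧
      (∀ m ≤ 3 * X, Sf (QL u v) ⌊(X : ℝ) ^ (1 / (r : ℝ))⌋₊ m ↔ Good D r X i.1 i.2 m) ∧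
      Vq (QL u v) ⌊(X : ℝ) ^ (1 / (r : ℝ))⌋₊ = V r X i.1 := by
  filter_upwards [ap_fam D r hr] with X h i hi
  obtain ⟨h1, h2⟩ := h i.1 i.2 hi.1 hi.2.1 hi.2.2.1 hi.2.2.2
  exact ⟨_, _, h1, h2, V_ap i.1 i.2 hi.2.2.2 _⟩

open Classical in
/-- **All mixed binomial moments of the counts in several windows**, in all intervals. -/
theorem result (D : ℕ) (θ : ℝ) (hθ : 0 < θ) (w : ℕ) (e : Fin w → ℕ) (x ε : ℝ) (hε : 0 < ε) :
    ∃ r0 : ℕ, ∀ r : ℕ, r0 ≤ r → ∀ᶠ X : ℕ in atTop, ∀ q a : ℕ, 1 ≤ q → q ≤ X ^ D →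
      a ≤ X ^ (D + 1) → Nat.Coprime a q → ∀ Z Y : ℕ, (X : ℝ) ^ θ ≤ Y →
      Z + Y ≤ 2 * X → ∀ u v : Fin w → ℕ, (∀ i, u i ≤ v i) → (∀ i, v i * V r X q ≤ x) →
      (∀ i j, i ≠ j → v i ≤ u j ∨ v j ≤ u i) →
        |∑ n ∈ Finset.Ioc Z (Z + Y), ∏ i, (((N D r X q a (n + u i) (n + v i)).choose (e i) : ℕ) : ℝ) -
          Y * ∏ i, ((((v i : ℝ) - u i) * V r X q) ^ (e i) / (e i).factorial)| ≤ ε * Y := by
  obtain ⟨r0, h⟩ := af_mom D (fun X (i : ℕ × ℕ) => 1 ≤ i.1 ∧ i.1 ≤ X ^ D ∧ i.2 ≤ X ^ (D + 1) ∧ Nat.Coprime i.2 i.1)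
    (fun r X i m => Good D r X i.1 i.2 m) (fun r X i => V r X i.1) (fam D) θ hθ e x ε hε
  refine ⟨r0, fun r hr => ?_⟩
  filter_upwards [h r hr] with X hX q a hq hqX haX hco
  exact hX (q, a) ⟨hq, hqX, haX, hco⟩

end Pool.Agent.Results.MP_2a816b_nt.MomentsUniform
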